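import Pool.Agent.Z15.Q.Main
import Pool.Agent.T2h66.Q15.EXT
import Pool.Agent.T2h43.V15.V_FAM
import Pool.Agent.HX6.V15.V_COR
import Pool.Agent.HX6.V15.V_TOP
import Pool.Agent.T2h97.V15.V_CK
import Pool.Agent.T2h97.V15.V_IMG
import Pool.Agent.T2h99.V15.V_DIV
import Pool.Agent.T2h99.V15.V_LAM
import Pool.Agent.N178.MU.Murre

/-!
Chow motives of abelian varieties on which endomorphisms of real type act: the proofs (helper15,
with helper6, helper43, helper97, helper99).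
-/

set_option autoImplicit false

namespace Pool.Agent.Z15.V

open Module Pool.Agent.Y90 Pool.Agent.R915 Pool.Agent.N178.BL Pool.Agent.Z15.Q
open Pool.Agent.N178.MU (Projectors IsChowKunneth HodgeZero F)

theorem v_COR : V_COR :=
  Pool.Agent.HX6.V15.t_V_COR (Pool.Agent.HX6.V15.t_V_TOP Pool.Agent.T2h99.V15.t_V_LAM)
    Pool.Agent.T2h99.V15.t_V_DIV Pool.Agent.T2h43.V15.t_V_FAM

theorem v_IMG : V_IMG :=
  Pool.Agent.T2h97.V15.t_V_IMGi q_MAIN Pool.Agent.T2h66.Q15.t_Q_EXT v_COR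

theorem v_CK : V_CK := Pool.Agent.T2h97.V15.t_V_CKi v_IMG

/-- The cycles in Murre's filtration. -/
theorem filtration {C : ChowTheory} (K : Projectors C) {X : AV} {E : X.H → X.H → ℚ}
    {R : Subalgebra ℚ (Module.End ℚ X.H)} (hR : RealType X E R) {p : C.Co X X}
    {P : ℕ → C.Co X X} (hp : ActsThrough R p) (hP : IsChowKunneth p P) (i ν : ℕ) (hν : 1 ≤ ν)
    (h : ∀ s t : ℕ, s ≠ t → 2 * i + ν ≤ s + t → (s ≤ i ∨ t ≤ i) → HodgeZero p s t)
    {O : AV} (hO : finrank ℚ O.H = 0) {z : C.Co O X} (hz : F p P i ν z) : z = 0 := by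
  obtain ⟨hz1, hz2, hz3⟩ := hz
  obtain ⟨N, hN, -⟩ := hP.2.2.1
  rw [← hz2, hN, Pool.Agent.N178.MU.sum_o]
  refine Finset.sum_eq_zero fun m _ => ?_
  by_cases hm : m < 2 * i + ν
  · exact hz3 m (by exact_mod_cast hm)
  · refine v_CK C K X E R hR p P hp hP m i (by omega) (fun s t hst hne hsi => ?_) O z hO hz1
    exact h s t hne (by omega) hsi

end Pool.Agent.Z15.V
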