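import Pool.Agent.Z15.Q.Defs
import Pool.Agent.N178.BL.Defs

/-!
Chow motives of abelian varieties on which endomorphisms of real type act (helper15).
-/

set_option autoImplicit false

namespace Pool.Agent.Z15.V

open Pool.Agent.Y90 Pool.Agent.N178.BL

/-- The correspondence `p` acts on the cohomology of `X` through the algebra `R` of endomorphisms: in
each degree `m` the action is a rational linear combination of pull-backs by elements of `R`. -/
def ActsThrough {C : ChowTheory} {X : AV} (R : Subalgebra ℚ (Module.End ℚ X.H)) (p : C.Co X X) :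
    Prop :=
  ∀ m : ℕ, ∃ (ι : Type) (_ : Fintype ι) (x : ι → ℚ) (r : ι → Module.End ℚ X.H), (∀ l, r l ∈ R) ∧
    ∀ ω : HT X, C.pb p ω m = ∑ l, x l • (ω m).compLinearMap (r l)

end Pool.Agent.Z15.V
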