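import Pool.Agent.Z15.V.Defs
import Pool.Agent.Z15.Q.Stm
import Pool.Agent.N178.BL.Main
import Pool.Agent.N178.MU.Murre

/-!
Statements of lemmas (tasks of helper15, prefix V_: Chow motives cut out by endomorphisms of real
type).
-/

set_option autoImplicit false

namespace Pool.Agent.Z15.V

open Module Pool.Agent.Y90 Pool.Agent.R915 Pool.Agent.W546.GHC Pool.Agent.N178.BL Pool.Agent.Z15.Q
open Pool.Agent.N178.HX (Cor)
open Pool.Agent.N178.MU (Projectors IsChowKunneth HodgeZero F)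
open Pool.Agent.H204R3.CM (IsHodge)

/-- products of a linear form and a class in `Cor` -/
def V_LAM : Prop :=
  ∀ (𝒜 : Sys) (X : AV) (n i : ℕ), ∀ f ∈ Cor 𝒜 X n i, ∀ (μ : X.H →ₗ[ℚ] ℚ)
    (g : X.H [⋀^Fin (i + 1)]→ₗ[ℚ] ℚ), (∀ x : Fin (i + 1) → X.H, g x =
      ∑ σ : Equiv.Perm (Fin (i + 1)), ((Equiv.Perm.sign σ : ℤ) : ℚ) *
        (μ (x (σ 0)) * f (fun l => x (σ l.succ)))) → g ∈ Cor 𝒜 X (n + 1) (i + 1)

/-- products of a class of a divisor and a class in `Cor` -/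
def V_DIV : Prop :=
  ∀ (𝒜 : Sys) (X : AV) (n i : ℕ), ∀ f ∈ Cor 𝒜 X n i, ∀ B : X.H [⋀^Fin 2]→ₗ[ℚ] ℚ,
    IsHodge X.per B → ∀ g : X.H [⋀^Fin (i + 2)]→ₗ[ℚ] ℚ, (∀ x : Fin (i + 2) → X.H, g x =
      ∑ σ : Equiv.Perm (Fin (i + 2)), ((Equiv.Perm.sign σ : ℤ) : ℚ) *
        (B ![x (σ 0), x (σ 1)] * f (fun l => x (σ l.succ.succ)))) → g ∈ Cor 𝒜 X n (i + 2)

/-- all classes -/
def V_TOP : Prop :=
  ∀ (𝒜 : Sys) (X : AV) (n : ℕ), Cor 𝒜 X n n = ⊤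

/-- products of classes of divisors -/
def V_FAM : Prop :=
  ∀ (X : AV) (𝒟 : ∀ _ i : ℕ, Submodule ℚ (X.H [⋀^Fin i]→ₗ[ℚ] ℚ)), (∀ i, 𝒟 0 i = ⊤) →
    (∀ (c i : ℕ), ∀ η ∈ 𝒟 c i, ∀ B : X.H [⋀^Fin 2]→ₗ[ℚ] ℚ, IsHodge X.per B →
      ∀ g : X.H [⋀^Fin (i + 2)]→ₗ[ℚ] ℚ, (∀ x : Fin (i + 2) → X.H, g x =
        ∑ σ : Equiv.Perm (Fin (i + 2)), ((Equiv.Perm.sign σ : ℤ) : ℚ) *
          (B ![x (σ 0), x (σ 1)] * η (fun l => x (σ l.succ.succ)))) → g ∈ 𝒟 (c + 1) (i + 2)) →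
    ∀ c i : ℕ, divisorProducts X.per i c ⊆ 𝒟 c i

/-- products of classes of divisors are given by correspondences -/
def V_COR : Prop :=
  ∀ (𝒜 : Sys) (X : AV) (n j : ℕ),
    Submodule.span ℚ (divisorProducts X.per (n + 2 * j) j) ≤ Cor 𝒜 X n (n + 2 * j)

/-- the factorization of the motive -/
def V_IMG : Prop :=
  ∀ (C : ChowTheory) (X : AV) (E : X.H → X.H → ℚ) (R : Subalgebra ℚ (Module.End ℚ X.H)),
    RealType X E R → ∀ p : C.Co X X, C.IsMotive p → ActsThrough R p → ∀ c : ℕ,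
      C.HasConiveau p c → p ∈ Fac C X c

/-- the pieces of a Chow-Künneth decomposition -/
def V_CK : Prop :=
  ∀ (C : ChowTheory) (_ : Projectors C) (X : AV) (E : X.H → X.H → ℚ)
    (R : Subalgebra ℚ (Module.End ℚ X.H)), RealType X E R → ∀ (p : C.Co X X)
    (P : ℕ → C.Co X X), ActsThrough R p → IsChowKunneth p P → ∀ m i : ℕ, m ≠ 2 * i →
      (∀ s t : ℕ, s + t = m → s ≠ t → (s ≤ i ∨ t ≤ i) → HodgeZero p s t) →
      ∀ (O : AV) (z : C.Co O X), finrank ℚ O.H = 0 → C.IsDeg i z → C.o (P m) z = 0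

def V_TOPi : Prop := V_LAM → V_TOP
def V_CORi : Prop := V_TOP → V_DIV → V_FAM → V_COR
def V_IMGi : Prop := Q_MAIN → Q_EXT → V_COR → V_IMG
def V_CKi : Prop := V_IMG → V_CK

end Pool.Agent.Z15.V
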